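import Pool.Agent.helper52.WB.LLN

set_option autoImplicit false

/-! WB project (MP_07c750_an), module FRQ: cyclic frequencies. -/

namespace Pool.Agent.helper65.WB

open Finset Matrix

theorem freq_nonneg {D k n : ℕ} (w : Fin n → Fin D) (x : Fin (k + 1) → Fin D) :
    0 ≤ freq w x := by
  unfold freq
  refine div_nonneg (Finset.sum_nonneg fun i _ => ?_) (by positivity)
  split_ifs <;> norm_num

theorem freq_le_one {D k n : ℕ} (w : Fin n → Fin D) (x : Fin (k + 1) → Fin D) :
    freq w x ≤ 1 := by
  unfold freq
  rw [div_le_one (by positivity)]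
  calc ∑ i ∈ range (k + 1), (if (∀ s : Fin n, cyc x (i + s.val) = w s) then (1 : ℝ) else 0)
      ≤ ∑ _i ∈ range (k + 1), (1 : ℝ) := by
        refine Finset.sum_le_sum fun i _ => ?_
        split_ifs <;> norm_num
    _ = (k : ℝ) + 1 := by simp

theorem FRQ_cyc_add {D k : ℕ} (x : Fin (k + 1) → Fin D) (m : ℕ) :
    cyc x (m + (k + 1)) = cyc x m := by
  unfold cyc
  congr 1
  ext
  simp

theorem FRQ_cyc_sh {D k : ℕ} (x : Fin (k + 1) → Fin D) (m : ℕ) :
    cyc (sh x) m = cyc x (m + k) := by
  unfold sh cyc
  simp

theorem freq_sh {D k n : ℕ} (w : Fin n → Fin D) (x : Fin (k + 1) → Fin D) :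
    freq w (sh x) = freq w x := by
  unfold freq
  congr 1
  simp only [FRQ_cyc_sh]
  rw [Finset.sum_range_succ', Finset.sum_range_succ]
  congr 1
  · refine Finset.sum_congr rfl fun i _ => ?_
    have h : ∀ s : Fin n, cyc x (i + 1 + s.val + k) = cyc x (i + s.val) := by
      intro s
      rw [show i + 1 + s.val + k = i + s.val + (k + 1) by ring, FRQ_cyc_add]
    simp only [h]
  · have h : ∀ s : Fin n, cyc x (0 + s.val + k) = cyc x (k + s.val) := by
      intro s
      rw [show 0 + s.val + k = k + s.val by ring]
    simp only [h]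

theorem FRQ_site_val {b l k : ℕ} (h : b * l = k + 1) (j : Fin b) (i : Fin l) :
    (site h (j, i)).val = i.val + l * j.val := by
  simp [site, finProdFinEquiv]

/-- words as families of blocks -/
def FRQ_equiv {D b l k : ℕ} (h : b * l = k + 1) :
    (Fin (k + 1) → Fin D) ≃ (Fin b → Fin l → Fin D) where
  toFun x := blk h x
  invFun z := fun m => z ((site h).symm m).1 ((site h).symm m).2
  left_inv x := by
    funext m
    simp [blk]
  right_inv z := by
    funext j i
    simp [blk]

/-- from LLN -/
theorem freq_lln {D b l k n : ℕ} (h : b * l = k + 1) (hn : n ≤ l) (w : Fin n → Fin D) (c : ℝ)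
    (hc0 : 0 ≤ c) (hc1 : c ≤ 1) (p : (Fin l → Fin D) → ℝ)
    (hp : ∀ (i : ℕ) (hi : i + n ≤ l),
      ∑ u with (∀ s : Fin n, u ⟨i + s.val, by omega⟩ = w s), p u = c)
    (P : Fin b → (Fin l → Fin D) → ℝ) (hP0 : ∀ j u, 0 ≤ P j u) (hP1 : ∀ j, ∑ u, P j u = 1)
    (j₀ : Fin b) (hP : ∀ j, j ≠ j₀ → ∀ u, P j u = p u) :
    ∑ x : Fin (k + 1) → Fin D, (∏ j, P j (blk h x j)) * (freq w x - c) ^ 2 ≤
      2 * n / l + 3 / b := by
  classical
  have hb : 1 ≤ b := by
    rcases Nat.eq_zero_or_pos b with h0 | h0
    · subst h0; simp at h
    · exact h0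
  have hl : 1 ≤ l := by
    rcases Nat.eq_zero_or_pos l with h0 | h0
    · subst h0; simp at h
    · exact h0
  have hb0 : (0 : ℝ) < b := by exact_mod_cast hb
  have hl0 : (0 : ℝ) < l := by exact_mod_cast hl
  let e := FRQ_equiv (D := D) h
  let X : Fin b × Fin l → (Fin b → (Fin l → Fin D)) → ℝ := fun q z =>
    if (∀ s : Fin n, cyc (e.symm z) ((site h q).val + s.val) = w s) then 1 else 0
  let f : Fin b × Fin l → (Fin l → Fin D) → ℝ := fun q u =>
    if hi : q.2.val + n ≤ l then
      (if (∀ s : Fin n, u ⟨q.2.val + s.val, by omega⟩ = w s) then 1 else 0) else 0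
  let bad : Finset (Fin b × Fin l) := Finset.univ.filter fun q => q.1 = j₀ ∨ l < q.2.val + n
  have hfreq : ∀ x : Fin (k + 1) → Fin D, freq w x = (∑ q, X q (e x)) / (b * l) := by
    intro x
    unfold freq
    have hden : ((b : ℝ) * l) = (k : ℝ) + 1 := by exact_mod_cast h
    rw [hden]
    congr 1
    rw [← Fin.sum_univ_eq_sum_range
      (fun i => if (∀ s : Fin n, cyc x (i + s.val) = w s) then (1 : ℝ) else 0) (k + 1),
      ← (site h).sum_comp]
    refine Finset.sum_congr rfl fun q _ => ?_
    simp only [X, Equiv.symm_apply_apply]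
  have hkey := lln hb hl P hP0 hP1 X
    (fun q z => by simp only [X]; split_ifs <;> norm_num)
    (fun q z => by simp only [X]; split_ifs <;> norm_num) c hc0 hc1 f bad ?_
  · have h1 : ∑ x : Fin (k + 1) → Fin D, (∏ j, P j (blk h x j)) * (freq w x - c) ^ 2
        = ∑ z : Fin b → (Fin l → Fin D), (∏ j, P j (z j)) * ((∑ q, X q z) / (b * l) - c) ^ 2 := by
      rw [← e.sum_comp]
      refine Finset.sum_congr rfl fun x _ => ?_
      rw [hfreq]
      rfl
    rw [h1]
    refine hkey.trans ?_
    -- the number of bad sites
    have hbad : (bad.card : ℝ) ≤ l + b * n := by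
      have h2 : bad ⊆ ({j₀} ×ˢ Finset.univ)
          ∪ (Finset.univ ×ˢ (Finset.univ.filter fun i : Fin l => l < i.val + n)) := by
        intro q hq
        simp only [bad, mem_filter, mem_univ, true_and] at hq
        simp only [mem_union, mem_product, mem_singleton, mem_univ, and_true, true_and, mem_filter]
        exact hq
      have h3 : (Finset.univ.filter fun i : Fin l => l < i.val + n).card ≤ n := by
        have h4 : (Finset.univ.filter fun i : Fin l => l < i.val + n).image
            (fun i : Fin l => l - 1 - i.val) ⊆ Finset.range n := by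
          intro m hm
          simp only [mem_image, mem_filter, mem_univ, true_and] at hm
          obtain ⟨i, hi, rfl⟩ := hm
          rw [mem_range]
          omega
        have h5 : Set.InjOn (fun i : Fin l => l - 1 - i.val)
            (Finset.univ.filter fun i : Fin l => l < i.val + n) := by
          intro i _ i' _ hii
          have h6 : l - 1 - i.val = l - 1 - i'.val := hii
          ext
          have := i.2
          have := i'.2
          omega
        have h7 := Finset.card_le_card h4
        rw [Finset.card_image_of_injOn h5, Finset.card_range] at h7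
        exact h7
      have h8 : bad.card ≤ l + b * n := by
        refine (Finset.card_le_card h2).trans ((Finset.card_union_le _ _).trans ?_)
        rw [Finset.card_product, Finset.card_product]
        simp only [Finset.card_singleton, Finset.card_univ, Fintype.card_fin, one_mul]
        exact Nat.add_le_add_left (Nat.mul_le_mul_left b h3) l
      exact_mod_cast h8
    have h9 : (2 * (n : ℝ) / l + 3 / b) = (2 * (l + b * n) + l) / (b * l) := by
      field_simp
      ring
    rw [h9]
    apply div_le_div_of_nonneg_right _ (by positivity)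
    linarith
  · intro q hq
    simp only [bad, mem_filter, mem_univ, true_and, not_or, not_lt] at hq
    obtain ⟨hq1, hq2⟩ := hq
    constructor
    · intro z
      simp only [X, f, hq2, dif_pos]
      have h2 : ∀ s : Fin n, cyc (e.symm z) ((site h q).val + s.val)
          = z q.1 ⟨q.2.val + s.val, by omega⟩ := by
        intro s
        have hs := s.2
        have h3 : (site h q).val + s.val
            = (site h (q.1, ⟨q.2.val + s.val, by omega⟩)).val := by
          have h4 : (site h q).val = q.2.val + l * q.1.val := FRQ_site_val h q.1 q.2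
          rw [h4, FRQ_site_val]
          simp only
          ring
        have h5 : ∀ m : Fin (k + 1), cyc (e.symm z) m.val = e.symm z m := by
          intro m
          unfold cyc
          have h7 : (⟨m.val % (k + 1), Nat.mod_lt _ (Nat.succ_pos k)⟩ : Fin (k + 1)) = m :=
            Fin.ext (Nat.mod_eq_of_lt m.2)
          rw [h7]
        rw [h3, h5]
        have h6 : blk h (e.symm z) q.1 ⟨q.2.val + s.val, by omega⟩
            = z q.1 ⟨q.2.val + s.val, by omega⟩ := by
          have := e.apply_symm_apply z
          exact congrFun (congrFun this q.1) _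
        exact h6
      simp only [h2]
    · have h2 : ∀ u, P q.1 u * f q u
          = if (∀ s : Fin n, u ⟨q.2.val + s.val, by omega⟩ = w s) then p u else 0 := by
        intro u
        simp only [f, hq2, dif_pos]
        rw [hP q.1 hq1 u]
        split_ifs <;> simp
      simp only [h2]
      rw [← Finset.sum_filter]
      exact hp q.2.val hq2

end Pool.Agent.helper65.WB
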