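import Pool.Agent.helper65.WB.Defs

set_option autoImplicit false

/-! WB project (MP_07c750_an), module MAR: window marginals of an invariant state. -/

namespace Pool.Agent.helper65.WB

open Finset Matrix
open scoped ComplexOrder

theorem MAR_right {D : ℕ} (U : Matrix (Fin D) (Fin D) ℂ)
    (ρ : ∀ n : ℕ, Matrix (Fin n → Fin D) (Fin n → Fin D) ℂ) (hρ : IsInvState U ρ) (n l i : ℕ)
    (hi : i + n ≤ l) (w : Fin n → Fin D) :
    ∑ u : Fin (l + 1) → Fin D with (∀ s : Fin n, u ⟨i + s.val, by omega⟩ = w s),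
        (ρ (l + 1) u u).re =
      ∑ u : Fin l → Fin D with (∀ s : Fin n, u ⟨i + s.val, by omega⟩ = w s), (ρ l u u).re := by
  rw [Finset.sum_filter, Finset.sum_filter,
    ← (Fin.snocEquiv (fun _ : Fin (l + 1) => Fin D)).sum_comp, Fintype.sum_prod_type,
    Finset.sum_comm]
  refine Finset.sum_congr rfl fun u _ => ?_
  have h1 : ∀ c : Fin D, (∀ s : Fin n,
      (Fin.snocEquiv (fun _ : Fin (l + 1) => Fin D)) (c, u) ⟨i + s.val, by omega⟩ = w s)
      ↔ (∀ s : Fin n, u ⟨i + s.val, by omega⟩ = w s) := by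
    intro c
    refine forall_congr' fun s => ?_
    have h2 : (Fin.snocEquiv (fun _ : Fin (l + 1) => Fin D)) (c, u) ⟨i + s.val, by omega⟩
        = u ⟨i + s.val, by omega⟩ :=
      Fin.snoc_castSucc (α := fun _ : Fin (l + 1) => Fin D) c u ⟨i + s.val, by omega⟩
    rw [h2]
  simp only [h1]
  split_ifs with hc
  · have h3 := congrArg Complex.re (hρ.right l u u)
    rw [Complex.re_sum] at h3
    rw [← h3]
    rfl
  · simp

theorem MAR_left {D : ℕ} (U : Matrix (Fin D) (Fin D) ℂ)
    (ρ : ∀ n : ℕ, Matrix (Fin n → Fin D) (Fin n → Fin D) ℂ) (hρ : IsInvState U ρ) (n l i : ℕ)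
    (hi : i + n ≤ l) (w : Fin n → Fin D) :
    ∑ u : Fin (l + 1) → Fin D with (∀ s : Fin n, u ⟨i + 1 + s.val, by omega⟩ = w s),
        (ρ (l + 1) u u).re =
      ∑ u : Fin l → Fin D with (∀ s : Fin n, u ⟨i + s.val, by omega⟩ = w s), (ρ l u u).re := by
  rw [Finset.sum_filter, Finset.sum_filter,
    ← (Fin.consEquiv (fun _ : Fin (l + 1) => Fin D)).sum_comp, Fintype.sum_prod_type,
    Finset.sum_comm]
  refine Finset.sum_congr rfl fun u _ => ?_
  have h1 : ∀ c : Fin D, (∀ s : Fin n,
      (Fin.consEquiv (fun _ : Fin (l + 1) => Fin D)) (c, u) ⟨i + 1 + s.val, by omega⟩ = w s)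
      ↔ (∀ s : Fin n, u ⟨i + s.val, by omega⟩ = w s) := by
    intro c
    refine forall_congr' fun s => ?_
    have h2 : (⟨i + 1 + s.val, by omega⟩ : Fin (l + 1)) = Fin.succ ⟨i + s.val, by omega⟩ := by
      ext
      simp
      omega
    have h3 : (Fin.consEquiv (fun _ : Fin (l + 1) => Fin D)) (c, u) ⟨i + 1 + s.val, by omega⟩
        = u ⟨i + s.val, by omega⟩ := by
      rw [h2]
      exact Fin.cons_succ (α := fun _ : Fin (l + 1) => Fin D) c u ⟨i + s.val, by omega⟩
    rw [h3]
  simp only [h1]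
  split_ifs with hc
  · have h3 := congrArg Complex.re (hρ.left l u u)
    rw [Complex.re_sum] at h3
    rw [← h3]
    rfl
  · simp

theorem marginal {D : ℕ} (U : Matrix (Fin D) (Fin D) ℂ)
    (ρ : ∀ n : ℕ, Matrix (Fin n → Fin D) (Fin n → Fin D) ℂ) (hρ : IsInvState U ρ) (n l i : ℕ)
    (hi : i + n ≤ l) (w : Fin n → Fin D) :
    ∑ u : Fin l → Fin D with (∀ s : Fin n, u ⟨i + s.val, by omega⟩ = w s), (ρ l u u).re =
      (ρ n w w).re := by
  induction i generalizing l with
  | zero =>
    have hnl : n ≤ l := by omega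
    induction l, hnl using Nat.le_induction with
    | base =>
      have h1 : (Finset.univ.filter (fun u : Fin n → Fin D =>
          ∀ s : Fin n, u ⟨0 + s.val, by omega⟩ = w s)) = {w} := by
        ext u
        simp only [mem_filter, mem_univ, true_and, mem_singleton]
        constructor
        · intro h
          funext s
          have := h s
          simpa using this
        · rintro rfl s
          simp
      rw [h1, Finset.sum_singleton]
    | succ l hl ih =>
      rw [MAR_right U ρ hρ n l 0 (by omega) w]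
      exact ih (by omega)
  | succ i ih =>
    obtain ⟨l', rfl⟩ : ∃ l', l = l' + 1 := ⟨l - 1, by omega⟩
    rw [MAR_left U ρ hρ n l' i (by omega) w]
    exact ih l' (by omega)

end Pool.Agent.helper65.WB
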