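import Pool.Agent.helper78.WB.SpecIII
import Pool.Agent.helper47.RA.Num

/-!
# MP_bb5cc8_nt: row wb:III.DVB
-/

set_option autoImplicit false

namespace Pool.Agent.WB

theorem DVB : DVB_stmt := by
  intro ε C hε
  have hC0 : (0 : ℝ) < 2 * ((C : ℝ) + 1) := by positivity
  obtain ⟨C₁, hC₁, hdiv⟩ := Pool.Agent.helper47.RA.card_divisors_le (ε / (2 * ((C : ℝ) + 1)))
    (div_pos hε hC0)
  refine ⟨⌈C₁ ^ (2 / ε)⌉₊, ?_⟩
  intro N hN R hR hRN
  have hN1 : C₁ ^ (2 / ε) ≤ (N : ℝ) := (Nat.le_ceil _).trans (by exact_mod_cast hN)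
  have hC1p : 1 ≤ C₁ ^ (2 / ε) := Real.one_le_rpow hC₁ (by positivity)
  have hNr : (1 : ℝ) ≤ N := hC1p.trans hN1
  have hNp : (0 : ℝ) < N := by linarith
  have h1 := hdiv R (Nat.pos_of_ne_zero hR)
  have h2 : C₁ ≤ (N : ℝ) ^ (ε / 2) := by
    have h3 : (C₁ ^ (2 / ε)) ^ (ε / 2) ≤ (N : ℝ) ^ (ε / 2) :=
      Real.rpow_le_rpow (by linarith) hN1 (by positivity)
    rw [← Real.rpow_mul (by linarith)] at h3
    have h4 : 2 / ε * (ε / 2) = 1 := by field_simp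
    rw [h4, Real.rpow_one] at h3
    exact h3
  have h5 : (R : ℝ) ^ (ε / (2 * ((C : ℝ) + 1))) ≤ (N : ℝ) ^ (ε / 2) := by
    have h6 : (R : ℝ) ≤ (N : ℝ) ^ (C : ℝ) := by
      rw [Real.rpow_natCast]
      exact_mod_cast hRN
    calc (R : ℝ) ^ (ε / (2 * ((C : ℝ) + 1))) ≤ ((N : ℝ) ^ (C : ℝ)) ^ (ε / (2 * ((C : ℝ) + 1))) :=
          Real.rpow_le_rpow (by positivity) h6 (by positivity)
      _ = (N : ℝ) ^ ((C : ℝ) * (ε / (2 * ((C : ℝ) + 1)))) := by rw [← Real.rpow_mul hNp.le]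
      _ ≤ (N : ℝ) ^ (ε / 2) := by
          refine Real.rpow_le_rpow_of_exponent_le hNr ?_
          have h7 : (C : ℝ) * (ε / (2 * ((C : ℝ) + 1))) = ε / 2 * ((C : ℝ) / ((C : ℝ) + 1)) := by
            field_simp
          rw [h7]
          have h8 : (C : ℝ) / ((C : ℝ) + 1) ≤ 1 := by
            rw [div_le_one (by positivity)]
            linarith
          have h9 : 0 < ε / 2 := by positivity
          nlinarith
  calc (R.divisors.card : ℝ) ≤ C₁ * (R : ℝ) ^ (ε / (2 * ((C : ℝ) + 1))) := h1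
    _ ≤ (N : ℝ) ^ (ε / 2) * (N : ℝ) ^ (ε / 2) :=
        mul_le_mul h2 h5 (by positivity) (by positivity)
    _ = (N : ℝ) ^ ε := by
        rw [← Real.rpow_add hNp]
        congr 1
        ring

end Pool.Agent.WB
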