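import Pool.Agent.helper65.WB.Defs

set_option autoImplicit false

/-! WB project (MP_07c750_an), module LLN: law of large numbers for independent blocks. -/

namespace Pool.Agent.helper65.WB

open Finset Matrix

/-- total mass of a product measure -/
theorem LLN_mass {β : Type} [Fintype β] {b : ℕ} (P : Fin b → β → ℝ)
    (hP1 : ∀ j, ∑ u, P j u = 1) : ∑ x : Fin b → β, ∏ j, P j (x j) = 1 := by
  have h := Finset.prod_univ_sum (fun _ : Fin b => (Finset.univ : Finset β)) (fun j u => P j u)
  rw [Fintype.piFinset_univ] at h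
  rw [← h]
  exact Finset.prod_eq_one fun j _ => hP1 j

/-- independence -/
theorem LLN_indep {β : Type} [Fintype β] {b : ℕ} (P : Fin b → β → ℝ) (i j : Fin b) (hij : i ≠ j)
    (g g' : β → ℝ) (hg : ∑ u, P i u * g u = 0) :
    ∑ x : Fin b → β, (∏ m, P m (x m)) * (g (x i) * g' (x j)) = 0 := by
  have h1 : ∀ x : Fin b → β, (∏ m, P m (x m)) * (g (x i) * g' (x j))
      = ∏ m, (P m (x m) * ((if m = i then g (x m) else 1) * (if m = j then g' (x m) else 1))) := by
    intro x
    rw [Finset.prod_mul_distrib, Finset.prod_mul_distrib, Finset.prod_ite_eq', Finset.prod_ite_eq']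
    simp
  simp only [h1]
  have h := Finset.prod_univ_sum (fun _ : Fin b => (Finset.univ : Finset β))
    (fun m u => P m u * ((if m = i then g u else 1) * (if m = j then g' u else 1)))
  rw [Fintype.piFinset_univ] at h
  rw [← h]
  refine Finset.prod_eq_zero (Finset.mem_univ i) ?_
  simpa [hij] using hg

theorem lln {β : Type} [Fintype β] {b l : ℕ} (hb : 1 ≤ b) (hl : 1 ≤ l)
    (P : Fin b → β → ℝ) (hP0 : ∀ j u, 0 ≤ P j u) (hP1 : ∀ j, ∑ u, P j u = 1)
    (X : Fin b × Fin l → (Fin b → β) → ℝ) (hX0 : ∀ p x, 0 ≤ X p x) (hX1 : ∀ p x, X p x ≤ 1)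
    (c : ℝ) (hc0 : 0 ≤ c) (hc1 : c ≤ 1) (f : Fin b × Fin l → β → ℝ)
    (bad : Finset (Fin b × Fin l))
    (hgood : ∀ p, p ∉ bad → (∀ x, X p x = f p (x p.1)) ∧ ∑ u, P p.1 u * f p u = c) :
    ∑ x : Fin b → β, (∏ j, P j (x j)) * ((∑ p, X p x) / (b * l) - c) ^ 2 ≤
      (2 * bad.card + l) / (b * l) := by
  classical
  have hb0 : (0 : ℝ) < b := by exact_mod_cast hb
  have hl0 : (0 : ℝ) < l := by exact_mod_cast hl
  have hbl : (0 : ℝ) < b * l := mul_pos hb0 hl0
  have hw : ∀ x : Fin b → β, 0 ≤ ∏ j, P j (x j) := fun x => Finset.prod_nonneg fun j _ => hP0 _ _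
  -- the expectation of a pair
  have hpair : ∀ p p' : Fin b × Fin l,
      ∑ x : Fin b → β, (∏ j, P j (x j)) * ((X p x - c) * (X p' x - c)) ≤
        (if p ∈ bad then 1 else 0) + (if p' ∈ bad then 1 else 0)
          + (if p.1 = p'.1 then 1 else 0) := by
    intro p p'
    have hle1 : ∑ x : Fin b → β, (∏ j, P j (x j)) * ((X p x - c) * (X p' x - c)) ≤ 1 := by
      rw [← LLN_mass P hP1]
      refine Finset.sum_le_sum fun x _ => ?_
      have h1 : |X p x - c| ≤ 1 := by
        rw [abs_le]; constructor <;> linarith [hX0 p x, hX1 p x]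
      have h2 : |X p' x - c| ≤ 1 := by
        rw [abs_le]; constructor <;> linarith [hX0 p' x, hX1 p' x]
      have h3 : (X p x - c) * (X p' x - c) ≤ 1 := by
        calc (X p x - c) * (X p' x - c) ≤ |(X p x - c) * (X p' x - c)| := le_abs_self _
          _ = |X p x - c| * |X p' x - c| := abs_mul _ _
          _ ≤ 1 := mul_le_one₀ h1 (abs_nonneg _) h2
      calc (∏ j, P j (x j)) * ((X p x - c) * (X p' x - c)) ≤ (∏ j, P j (x j)) * 1 :=
            mul_le_mul_of_nonneg_left h3 (hw x)
        _ = ∏ j, P j (x j) := mul_one _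
    by_cases h1 : p ∈ bad
    · rw [if_pos h1]
      refine hle1.trans ?_
      have a1 : (0 : ℝ) ≤ if p' ∈ bad then 1 else 0 := by split_ifs <;> norm_num
      have a2 : (0 : ℝ) ≤ if p.1 = p'.1 then 1 else 0 := by split_ifs <;> norm_num
      linarith
    by_cases h2 : p' ∈ bad
    · rw [if_pos h2]
      refine hle1.trans ?_
      have a1 : (0 : ℝ) ≤ if p ∈ bad then 1 else 0 := by split_ifs <;> norm_num
      have a2 : (0 : ℝ) ≤ if p.1 = p'.1 then 1 else 0 := by split_ifs <;> norm_num
      linarith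
    by_cases h3 : p.1 = p'.1
    · rw [if_pos h3]
      refine hle1.trans ?_
      have a1 : (0 : ℝ) ≤ if p ∈ bad then 1 else 0 := by split_ifs <;> norm_num
      have a2 : (0 : ℝ) ≤ if p' ∈ bad then 1 else 0 := by split_ifs <;> norm_num
      linarith
    rw [if_neg h1, if_neg h2, if_neg h3]
    obtain ⟨g1, g2⟩ := hgood p h1
    obtain ⟨g3, g4⟩ := hgood p' h2
    have h5 : ∑ u, P p.1 u * (f p u - c) = 0 := by
      simp only [mul_sub, Finset.sum_sub_distrib, g2, ← Finset.sum_mul, hP1]
      ring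
    have h6 := LLN_indep P p.1 p'.1 h3 (fun u => f p u - c) (fun u => f p' u - c) h5
    simp only [g1, g3]
    rw [h6]
    norm_num
  -- expand the square
  have hsq : ∀ x : Fin b → β, ((∑ p, X p x) / (b * l) - c) ^ 2
      = (∑ p, ∑ p', (X p x - c) * (X p' x - c)) / (b * l) ^ 2 := by
    intro x
    rw [← Finset.sum_mul_sum, Finset.sum_sub_distrib]
    have : ∑ _p : Fin b × Fin l, c = (b * l) * c := by
      simp [Finset.sum_const, Fintype.card_prod]
    rw [this]
    field_simp
  have hE : ∑ x : Fin b → β, (∏ j, P j (x j)) * ((∑ p, X p x) / (b * l) - c) ^ 2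
      = (∑ p, ∑ p', ∑ x : Fin b → β, (∏ j, P j (x j)) * ((X p x - c) * (X p' x - c)))
        / (b * l) ^ 2 := by
    simp only [hsq]
    rw [Finset.sum_div]
    simp only [Finset.sum_div, Finset.mul_sum]
    rw [Finset.sum_comm]
    refine Finset.sum_congr rfl fun p _ => ?_
    rw [Finset.sum_comm]
    refine Finset.sum_congr rfl fun p' _ => ?_
    refine Finset.sum_congr rfl fun x _ => ?_
    ring
  rw [hE, div_le_div_iff₀ (by positivity) hbl]
  have hcount : ∑ p : Fin b × Fin l, ∑ p' : Fin b × Fin l,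
      (((if p ∈ bad then 1 else 0) + (if p' ∈ bad then 1 else 0)
          + (if p.1 = p'.1 then 1 else 0) : ℝ)) = (2 * bad.card + l) * (b * l) := by
    simp only [Finset.sum_add_distrib]
    have c1 : ∑ p : Fin b × Fin l, ∑ _p' : Fin b × Fin l, (if p ∈ bad then (1 : ℝ) else 0)
        = bad.card * (b * l) := by
      simp only [Finset.sum_const, Finset.card_univ, Fintype.card_prod, Fintype.card_fin,
        nsmul_eq_mul, ← Finset.mul_sum, Finset.sum_boole]
      have : (Finset.univ.filter fun p : Fin b × Fin l => p ∈ bad) = bad := by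
        ext; simp
      rw [this]
      push_cast
      ring
    have c2 : ∑ _p : Fin b × Fin l, ∑ p' : Fin b × Fin l, (if p' ∈ bad then (1 : ℝ) else 0)
        = bad.card * (b * l) := by
      rw [Finset.sum_comm]; exact c1
    have c3 : ∑ p : Fin b × Fin l, ∑ p' : Fin b × Fin l, (if p.1 = p'.1 then (1 : ℝ) else 0)
        = l * (b * l) := by
      have : ∀ p : Fin b × Fin l, ∑ p' : Fin b × Fin l, (if p.1 = p'.1 then (1 : ℝ) else 0)
          = l := by
        intro p
        rw [Fintype.sum_prod_type, Finset.sum_eq_single p.1]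
        · simp
        · intro a _ ha
          refine Finset.sum_eq_zero fun i _ => if_neg (fun h => ha h.symm)
        · simp
      simp only [this]
      simp [Finset.sum_const, Fintype.card_prod]
      ring
    rw [c1, c2, c3]
    ring
  have hle := Finset.sum_le_sum fun (p : Fin b × Fin l) (_ : p ∈ Finset.univ) =>
    Finset.sum_le_sum fun (p' : Fin b × Fin l) (_ : p' ∈ Finset.univ) => hpair p p'
  rw [hcount] at hle
  calc (∑ p, ∑ p', ∑ x : Fin b → β, (∏ j, P j (x j)) * ((X p x - c) * (X p' x - c))) * (b * l)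
      ≤ ((2 * bad.card + l) * (b * l)) * (b * l) := mul_le_mul_of_nonneg_right hle hbl.le
    _ = (2 * bad.card + l) * (b * l) ^ 2 := by ring

end Pool.Agent.helper65.WB
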